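import Mathlib
import Pool.Agent.Q161.ESF.Stm7

/-!
# Job APX (project ESF of helper161): approximation
-/

set_option autoImplicit false

namespace Pool.Agent.Q182.ESF

open Polynomial NumberField IsDedekindDomain

section gen

variable {K : Type} [Field K] {Γ : Type} [LinearOrderedCommGroupWithZero Γ] (w : Valuation K Γ)

/-- the coefficients are bounded -/
def Bd (P : K[X]) (c : Γ) : Prop := ∀ n, w (P.coeff n) ≤ c

/-- the coefficients are small -/
def Sm (P : K[X]) (c : Γ) : Prop := ∀ n, w (P.coeff n) < c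

variable {w}

theorem Bd.mono {P : K[X]} {a b : Γ} (h : Bd w P a) (hab : a ≤ b) : Bd w P b :=
  fun n => (h n).trans hab

theorem Bd.mul {P Q : K[X]} {a b : Γ} (hP : Bd w P a) (hQ : Bd w Q b) : Bd w (P * Q) (a * b) := by
  intro n
  rw [coeff_mul]
  apply w.map_sum_le
  intro i _
  rw [map_mul]
  exact mul_le_mul' (hP _) (hQ _)

theorem Sm.mul {P Q : K[X]} {a b : Γ} (hP : Sm w P a) (hQ : Bd w Q b) (hb : 0 < b) (ha : a ≠ 0) :
    Sm w (P * Q) (a * b) := by
  intro n
  rw [coeff_mul]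
  apply w.map_sum_lt (mul_ne_zero ha hb.ne')
  intro i _
  rw [map_mul]
  exact (mul_le_mul_right (hQ _) _).trans_lt (mul_lt_mul_of_pos_right (hP _) hb)

theorem Sm.add {P Q : K[X]} {a : Γ} (hP : Sm w P a) (hQ : Sm w Q a) : Sm w (P + Q) a := by
  intro n
  rw [coeff_add]
  exact w.map_add_lt (hP n) (hQ n)

theorem Sm.neg {P : K[X]} {a : Γ} (hP : Sm w P a) : Sm w (-P) a := by
  intro n
  rw [coeff_neg, Valuation.map_neg]
  exact hP n

theorem Sm.sub {P Q : K[X]} {a : Γ} (hP : Sm w P a) (hQ : Sm w Q a) : Sm w (P - Q) a := by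
  rw [sub_eq_add_neg]
  exact hP.add hQ.neg

theorem Sm.mono {P : K[X]} {a b : Γ} (h : Sm w P a) (hab : a ≤ b) : Sm w P b :=
  fun n => (h n).trans_le hab

theorem Bd.add {P Q : K[X]} {a : Γ} (hP : Bd w P a) (hQ : Bd w Q a) : Bd w (P + Q) a := by
  intro n
  rw [coeff_add]
  exact w.map_add_le (hP n) (hQ n)

theorem exists_bd (P : K[X]) : ∃ c : Γ, 1 ≤ c ∧ Bd w P c := by
  induction P using Polynomial.induction_on' with
  | add p q hp hq =>
    obtain ⟨a, ha, ha'⟩ := hp
    obtain ⟨b, hb, hb'⟩ := hq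
    exact ⟨max a b, ha.trans (le_max_left _ _),
      (ha'.mono (le_max_left _ _)).add (hb'.mono (le_max_right _ _))⟩
  | monomial n a =>
    refine ⟨max 1 (w a), le_max_left _ _, fun m => ?_⟩
    rw [coeff_monomial]
    split_ifs
    · exact le_max_right _ _
    · rw [map_zero]
      exact zero_le

theorem approx_pol {F : Type} [Field F] (ι : F →+* K) {γ : Γ} (hγ : γ ≠ 0)
    (happ : ∀ z : K, ∃ c : F, w (ι c - z) < γ) (P : K[X]) :
    ∃ P' : F[X], Sm w (P'.map ι - P) γ := by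
  induction P using Polynomial.induction_on' with
  | add p q hp hq =>
    obtain ⟨p', hp'⟩ := hp
    obtain ⟨q', hq'⟩ := hq
    refine ⟨p' + q', ?_⟩
    rw [Polynomial.map_add, add_sub_add_comm]
    exact hp'.add hq'
  | monomial n a =>
    obtain ⟨c, hc⟩ := happ a
    refine ⟨monomial n c, fun m => ?_⟩
    rw [map_monomial, coeff_sub, coeff_monomial, coeff_monomial]
    split_ifs
    · exact hc
    · rw [sub_zero, map_zero]
      exact zero_lt_iff.2 hγ

/-- the local approximation -/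
theorem local_approx {F : Type} [Field F] (ι : F →+* K)
    (happ : ∀ (z : K) (γ : Γ), γ ≠ 0 → ∃ c : F, w (ι c - z) < γ) (A B : F)
    (hA : w (ι A) ≤ 1) (d : F[X]) (x y : K) (g q : K[X]) (hy : y ≠ 0)
    (hxy : y ^ 2 = x ^ 3 + ι A * x + ι B)
    (hq : C x - X - d.map ι * g ^ 2 = (X ^ 3 + C A * X + C B : F[X]).map ι * q) :
    ∃ (x' y' : F) (g' q' : F[X]), y' ≠ 0 ∧
      w (ι ((x' ^ 3 + A * x' + B) / y' ^ 2 - 1)) < 1 ∧
      ∀ n i : ℕ, i ≤ 2 → w (ι ((C x' - X - d * g' ^ 2 - (X ^ 3 + C A * X + C B) * q').coeff n *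
        x' ^ i)) < w (ι (x' ^ 3 + A * x' + B)) := by
  obtain ⟨M₁, hM₁, hM₁'⟩ := exists_bd (w := w) (d.map ι)
  obtain ⟨M₂, hM₂, hM₂'⟩ := exists_bd (w := w) g
  obtain ⟨M₃, hM₃, hM₃'⟩ := exists_bd (w := w) ((X ^ 3 + C A * X + C B : F[X]).map ι)
  obtain ⟨M, hM, hMd, hMg, hMh⟩ : ∃ M : Γ, 1 ≤ M ∧ Bd w (d.map ι) M ∧ Bd w g M ∧
      Bd w ((X ^ 3 + C A * X + C B : F[X]).map ι) M :=
    ⟨max M₁ (max M₂ M₃), hM₁.trans (le_max_left _ _), hM₁'.mono (le_max_left _ _),
      hM₂'.mono ((le_max_left _ _).trans (le_max_right _ _)),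
      hM₃'.mono ((le_max_right _ _).trans (le_max_right _ _))⟩
  clear hM₁ hM₁' hM₂ hM₂' hM₃ hM₃'
  have hM0 : 0 < M := zero_lt_one.trans_le hM
  obtain ⟨mx, hmx1, hmxx⟩ : ∃ mx : Γ, 1 ≤ mx ∧ w x ≤ mx := ⟨max 1 (w x), le_max_left _ _,
    le_max_right _ _⟩
  have hmx0 : 0 < mx := zero_lt_one.trans_le hmx1
  have hwy : 0 < w y := zero_lt_iff.2 ((Valuation.ne_zero_iff w).2 hy)
  obtain ⟨β, hβ0, hβ⟩ : ∃ β : Γ, 0 < β ∧ β * mx ^ 2 = w y ^ 2 :=
    ⟨w y ^ 2 / mx ^ 2, div_pos (pow_pos hwy 2) (pow_pos hmx0 2),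
      div_mul_cancel₀ _ (pow_pos hmx0 2).ne'⟩
  obtain ⟨γ, hγ0, hγ1, hγβ⟩ : ∃ γ : Γ, 0 < γ ∧ γ ≤ 1 ∧ γ * (M * M) ≤ β := by
    refine ⟨min 1 β / (M * M), div_pos (lt_min zero_lt_one hβ0) (mul_pos hM0 hM0), ?_, ?_⟩
    · rw [div_le_one₀ (mul_pos hM0 hM0)]
      exact (min_le_left _ _).trans (one_le_mul hM hM)
    · rw [div_mul_cancel₀ _ (mul_pos hM0 hM0).ne']
      exact min_le_right _ _
  have hγβ' : γ ≤ β := by
    refine le_trans ?_ hγβ
    calc γ = γ * 1 := (mul_one _).symm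
      _ ≤ γ * (M * M) := mul_le_mul_right (one_le_mul hM hM) _
  obtain ⟨x', hx'⟩ := happ x γ hγ0.ne'
  obtain ⟨y', hy'⟩ := happ y (w y) hwy.ne'
  obtain ⟨g', hg'⟩ := approx_pol ι hγ0.ne' (fun z => happ z γ hγ0.ne') g
  obtain ⟨q', hq'⟩ := approx_pol ι hγ0.ne' (fun z => happ z γ hγ0.ne') q
  -- the size of `x'`
  have hx'm : w (ι x') ≤ mx := by
    have h1 : ι x' = (ι x' - x) + x := by ring
    rw [h1]
    exact w.map_add_le ((hx'.le.trans hγ1).trans hmx1) hmxx
  -- the value of the cubic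
  have hh : w (ι (x' ^ 3 + A * x' + B) - y ^ 2) < w y ^ 2 := by
    have h1 : ι (x' ^ 3 + A * x' + B) - y ^ 2 =
        (ι x' - x) * (ι x' ^ 2 + ι x' * x + x ^ 2 + ι A) := by
      rw [hxy, map_add, map_add, map_mul, map_pow]
      ring
    rw [h1, map_mul, ← hβ]
    have h2 : w (ι x' ^ 2 + ι x' * x + x ^ 2 + ι A) ≤ mx ^ 2 := by
      refine w.map_add_le (w.map_add_le (w.map_add_le ?_ ?_) ?_) ?_
      · rw [map_pow]
        exact pow_le_pow_left' hx'm 2
      · rw [map_mul, pow_two]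
        exact mul_le_mul' hx'm hmxx
      · rw [map_pow]
        exact pow_le_pow_left' hmxx 2
      · exact hA.trans (one_le_pow₀ hmx1)
    refine (mul_le_mul_right h2 _).trans_lt ?_
    exact mul_lt_mul_of_pos_right (hx'.trans_le hγβ') (pow_pos hmx0 2)
  have hhe : w (ι (x' ^ 3 + A * x' + B)) = w y ^ 2 := by
    rw [← map_pow]
    exact Valuation.map_eq_of_sub_lt w (by rw [map_pow]; exact hh)
  have hye : w (ι y') = w y := Valuation.map_eq_of_sub_lt w hy'
  have hy'0 : y' ≠ 0 := by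
    rintro rfl
    rw [map_zero, map_zero] at hye
    exact hwy.ne hye
  refine ⟨x', y', g', q', hy'0, ?_, ?_⟩
  · have h1 : ι ((x' ^ 3 + A * x' + B) / y' ^ 2 - 1) =
        ((ι (x' ^ 3 + A * x' + B) - y ^ 2) - (ι y' - y) * (ι y' + y)) / ι y' ^ 2 := by
      have h2 : ι y' ≠ 0 := (map_ne_zero ι).2 hy'0
      rw [map_sub, map_div₀, map_one, map_pow]
      field_simp
      ring
    rw [h1, map_div₀, map_pow, hye, div_lt_one₀ (pow_pos hwy 2)]
    apply lt_of_le_of_lt (w.map_sub _ _)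
    apply max_lt hh
    rw [map_mul, pow_two]
    have h3 : w (ι y' + y) ≤ w y := w.map_add_le hye.le le_rfl
    refine (mul_le_mul_right h3 _).trans_lt ?_
    exact mul_lt_mul_of_pos_right hy' hwy
  · intro n i hi
    have hr : Sm w ((C x' - X - d * g' ^ 2 - (X ^ 3 + C A * X + C B) * q').map ι) β := by
      have h1 : (C x' - X - d * g' ^ 2 - (X ^ 3 + C A * X + C B) * q').map ι =
          C (ι x' - x) - (g'.map ι - g) * ((g'.map ι + g) * d.map ι) -
            (q'.map ι - q) * (X ^ 3 + C A * X + C B : F[X]).map ι := by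
        rw [Polynomial.map_sub, Polynomial.map_sub, Polynomial.map_sub, Polynomial.map_mul,
          Polynomial.map_mul, Polynomial.map_pow, map_C, map_X, map_sub]
        linear_combination hq
      rw [h1]
      refine (Sm.sub ?_ ?_).sub ?_
      · intro m
        rw [coeff_C]
        split_ifs
        · exact hx'.trans_le hγβ'
        · rw [map_zero]
          exact hβ0
      · have h2 : Bd w (g'.map ι + g) M := by
          have h3 : g'.map ι + g = (g'.map ι - g) + (g + g) := by ring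
          rw [h3]
          refine Bd.add (fun m => ?_) (hMg.add hMg)
          exact (hg' m).le.trans (hγ1.trans hM)
        exact (hg'.mul (h2.mul hMd) (mul_pos hM0 hM0) hγ0.ne').mono hγβ
      · refine (hq'.mul hMh hM0 hγ0.ne').mono (le_trans ?_ hγβ)
        exact mul_le_mul_right (le_mul_of_one_le_left' hM) _
    have h2 := hr n
    rw [coeff_map] at h2
    rw [hhe, ← hβ, map_mul, map_mul, map_pow, map_pow]
    have h3 : w (ι x') ^ i ≤ mx ^ 2 := by
      calc w (ι x') ^ i ≤ mx ^ i := pow_le_pow_left' hx'm i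
        _ ≤ mx ^ 2 := pow_le_pow_right₀ hmx1 hi
    refine (mul_le_mul_right h3 _).trans_lt ?_
    exact mul_lt_mul_of_pos_right h2 (pow_pos hmx0 2)

end gen

section glob

variable {F L : Type} [Field F] [NumberField F] [Field L] [NumberField L] [Algebra F L]

theorem exists_val (v : HeightOneSpectrum (𝓞 F)) (V : HeightOneSpectrum (𝓞 L))
    (h : V.asIdeal.comap (algebraMap (𝓞 F) (𝓞 L)) = v.asIdeal) :
    ∃ e : ℕ, e ≠ 0 ∧ ∀ c : F, V.valuation L (algebraMap F L c) = v.valuation F c ^ e := by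
  have : V.asIdeal.LiesOver v.asIdeal := ⟨h.symm⟩
  exact ⟨_, Ideal.IsDedekindDomain.ramificationIdx'_ne_zero_of_liesOver V.asIdeal v.ne_bot,
    fun c => (HeightOneSpectrum.valuation_liesOver L v V c).symm⟩

theorem exists_above (v : HeightOneSpectrum (𝓞 F)) : ∃ V : HeightOneSpectrum (𝓞 L),
    V.asIdeal.comap (algebraMap (𝓞 F) (𝓞 L)) = v.asIdeal := by
  have := v.isMaximal
  obtain ⟨P, hP, hP2⟩ := Ideal.exists_maximal_ideal_liesOver_of_isIntegral (S := 𝓞 L) v.asIdeal
  refine ⟨⟨P, hP.isPrime, ?_⟩, hP2.over.symm⟩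
  rintro rfl
  have h1 := hP2.over
  rw [Ideal.under_bot] at h1
  exact v.ne_bot h1

theorem happ (v : HeightOneSpectrum (𝓞 F)) (z : v.adicCompletion F)
    (γ : WithZero (Multiplicative ℤ)) (hγ : γ ≠ 0) :
    ∃ c : F, Valued.v (algebraMap F (v.adicCompletion F) c - z) < γ := by
  obtain ⟨t, ht⟩ := v.valuedAdicCompletion_surjective F γ
  have ht0 : (Valued.v (R := v.adicCompletion F)).restrict t ≠ 0 := by
    intro h0
    apply hγ
    rw [← ht]
    have h2 : (Valued.v (R := v.adicCompletion F)).restrict t =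
        (Valued.v (R := v.adicCompletion F)).restrict 0 := by
      rw [h0, map_zero]
    rw [Valuation.restrict_inj] at h2
    rw [h2, map_zero]
  have h1 : {y : v.adicCompletion F | (Valued.v (R := v.adicCompletion F)).restrict (y - z) <
      (Valued.v (R := v.adicCompletion F)).restrict t} ∈ nhds z := by
    rw [Valued.mem_nhds]
    exact ⟨Units.mk0 _ ht0, subset_rfl⟩
  obtain ⟨f, hf⟩ := (HeightOneSpectrum.denseRange_algebraMap F v).mem_nhds h1
  refine ⟨f, ?_⟩
  have h2 : (Valued.v (R := v.adicCompletion F)).restrict (algebraMap F _ f - z) <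
    (Valued.v (R := v.adicCompletion F)).restrict t := hf
  rw [Valuation.restrict_lt_iff] at h2
  rw [← ht]
  exact h2

theorem final_step {v : HeightOneSpectrum (𝓞 F)} {V : HeightOneSpectrum (𝓞 L)}
    (h : V.asIdeal.comap (algebraMap (𝓞 F) (𝓞 L)) = v.asIdeal) {A B : F} {ϑ : L}
    (hA : v.valuation F A ≤ 1) (hϑ : V.valuation L ϑ ≤ 1)
    (hroot : ϑ ^ 3 + algebraMap F L A * ϑ + algebraMap F L B = 0) {x' : F} {r : F[X]}
    (hr : ∀ n i : ℕ, i ≤ 2 → v.valuation F (r.coeff n * x' ^ i) <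
      v.valuation F (x' ^ 3 + A * x' + B)) :
    V.valuation L (aeval ϑ r) < V.valuation L (algebraMap F L x' - ϑ) := by
  obtain ⟨e, he, hV⟩ := exists_val v V h
  have hfac : algebraMap F L (x' ^ 3 + A * x' + B) = (algebraMap F L x' - ϑ) *
      (algebraMap F L x' ^ 2 + algebraMap F L x' * ϑ + (ϑ ^ 2 + algebraMap F L A)) := by
    rw [map_add, map_add, map_mul, map_pow]
    linear_combination hroot
  have hterm : ∀ (n i : ℕ), i ≤ 2 → ∀ u : L, V.valuation L u ≤ 1 →
      V.valuation L (algebraMap F L (r.coeff n * x' ^ i) * u) <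
        V.valuation L (algebraMap F L (x' ^ 3 + A * x' + B)) := by
    intro n i hi u hu
    rw [map_mul (V.valuation L)]
    refine (mul_le_of_le_one_right' hu).trans_lt ?_
    rw [hV, hV]
    exact pow_lt_pow_left₀ (hr n i hi) zero_le he
  have hH0 : V.valuation L (algebraMap F L (x' ^ 3 + A * x' + B)) ≠ 0 := by
    have := hterm 0 0 (by omega) 1 (by rw [map_one])
    exact (lt_of_le_of_lt zero_le this).ne'
  have hAL : V.valuation L (algebraMap F L A) ≤ 1 := by
    rw [hV]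
    exact pow_le_one₀ zero_le hA
  have hprod : V.valuation L (aeval ϑ r * (algebraMap F L x' ^ 2 + algebraMap F L x' * ϑ +
      (ϑ ^ 2 + algebraMap F L A))) < V.valuation L (algebraMap F L (x' ^ 3 + A * x' + B)) := by
    rw [aeval_eq_sum_range, Finset.sum_mul]
    apply Valuation.map_sum_lt _ hH0
    intro n _
    have h1 : r.coeff n • ϑ ^ n * (algebraMap F L x' ^ 2 + algebraMap F L x' * ϑ +
        (ϑ ^ 2 + algebraMap F L A)) = algebraMap F L (r.coeff n * x' ^ 2) * ϑ ^ n +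
        algebraMap F L (r.coeff n * x' ^ 1) * ϑ ^ (n + 1) +
        algebraMap F L (r.coeff n * x' ^ 0) * (ϑ ^ n * (ϑ ^ 2 + algebraMap F L A)) := by
      rw [Algebra.smul_def, map_mul, map_mul, map_mul, map_pow, map_pow, map_pow]
      ring
    rw [h1]
    have hp : ∀ m : ℕ, V.valuation L (ϑ ^ m) ≤ 1 := fun m => by
      rw [map_pow]
      exact pow_le_one₀ zero_le hϑ
    refine Valuation.map_add_lt _ (Valuation.map_add_lt _ ?_ ?_) ?_
    · exact hterm n 2 le_rfl _ (hp n)
    · exact hterm n 1 (by omega) _ (hp (n + 1))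
    · refine hterm n 0 (by omega) _ ?_
      rw [map_mul]
      exact mul_le_one' (hp n) (Valuation.map_add_le _ (hp 2) hAL)
  rw [hfac, map_mul, map_mul] at hprod
  exact lt_of_mul_lt_mul_right hprod zero_le

end glob

theorem apx : Pool.Agent.Q161.ESF.S_APX := by
  intro F L _ _ _ _ _ a b th hcub D hD v δ hδ d x y g hd hy hxy hdvd
  obtain ⟨q, hq⟩ := hdvd
  have hvι : ∀ c : F, Valued.v (algebraMap F (v.adicCompletion F) c) = v.valuation F c :=
    fun c => HeightOneSpectrum.valuedAdicCompletion_eq_valuation' v c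
  have hA : v.valuation F ((a : F) * (D : F) ^ 2) ≤ 1 := by
    have h1 : (a : F) * (D : F) ^ 2 = algebraMap (𝓞 F) F (a * (D : 𝓞 F) ^ 2) := by
      rw [map_mul, map_pow, map_intCast]
    rw [h1]
    exact v.valuation_le_one _
  obtain ⟨x', y', g', q', hy'0, h1, h2⟩ := local_approx
    (w := Valued.v (R := v.adicCompletion F)) (algebraMap F (v.adicCompletion F)) (happ v)
    ((a : F) * (D : F) ^ 2) ((b : F) * (D : F) ^ 3) (by rw [hvι]; exact hA) d x y g q hy hxy hq
  rw [hvι] at h1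
  have h2' := fun n i hi => h2 n i hi
  simp only [hvι] at h2'
  have hroot : ((D : L) * (th : L)) ^ 3 + algebraMap F L ((a : F) * (D : F) ^ 2) *
      ((D : L) * (th : L)) + algebraMap F L ((b : F) * (D : F) ^ 3) = 0 := by
    have h3 := hcub.root
    rw [map_mul, map_mul, map_pow, map_pow, map_intCast]
    linear_combination (D : L) ^ 3 * h3
  have hlt : ∀ V : HeightOneSpectrum (𝓞 L),
      V.asIdeal.comap (algebraMap (𝓞 F) (𝓞 L)) = v.asIdeal →
      V.valuation L (aeval ((D : L) * (th : L)) (C x' - X - d * g' ^ 2 -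
        (X ^ 3 + C ((a : F) * (D : F) ^ 2) * X + C ((b : F) * (D : F) ^ 3)) * q')) <
      V.valuation L (algebraMap F L x' - (D : L) * (th : L)) := by
    intro V hV
    refine final_step hV hA ?_ hroot h2'
    have h3 : (D : L) * (th : L) = algebraMap (𝓞 L) L ((D : 𝓞 L) * th) := by
      rw [map_mul, map_intCast]
    rw [h3]
    exact V.valuation_le_one _
  have hae : aeval ((D : L) * (th : L)) (C x' - X - d * g' ^ 2 -
        (X ^ 3 + C ((a : F) * (D : F) ^ 2) * X + C ((b : F) * (D : F) ^ 3)) * q') =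
      algebraMap F L x' - (D : L) * (th : L) - δ * aeval ((D : L) * (th : L)) g' ^ 2 := by
    rw [map_sub, map_sub, map_sub, map_mul, map_mul, map_pow, hd, aeval_C, aeval_X, map_add,
      map_add, map_pow, aeval_X, map_mul, aeval_X, aeval_C, aeval_C]
    linear_combination (-(aeval ((D : L) * (th : L)) q')) * hroot
  rw [hae] at hlt
  obtain ⟨V₀, hV₀⟩ := exists_above (L := L) v
  have hg0 : aeval ((D : L) * (th : L)) g' ≠ 0 := by
    intro h0
    have h3 := hlt V₀ hV₀
    rw [h0, zero_pow two_ne_zero, mul_zero, sub_zero] at h3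
    exact lt_irrefl _ h3
  refine ⟨x', y', (aeval ((D : L) * (th : L)) g')⁻¹, hy'0, inv_ne_zero hg0, h1, ?_⟩
  intro V hV
  have h3 := hlt V hV
  have h4 : algebraMap F L x' - (D : L) * (th : L) ≠ 0 := by
    intro h0
    rw [h0, map_zero] at h3
    exact not_lt_zero h3
  have h5 : δ / ((algebraMap F L x' - (D : L) * (th : L)) *
      (aeval ((D : L) * (th : L)) g')⁻¹ ^ 2) - 1 =
      -((algebraMap F L x' - (D : L) * (th : L) - δ * aeval ((D : L) * (th : L)) g' ^ 2) /
        (algebraMap F L x' - (D : L) * (th : L))) := by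
    field_simp
    ring
  rw [h5, Valuation.map_neg, map_div₀, div_lt_one₀ (zero_lt_iff.2 ((Valuation.ne_zero_iff _).2 h4))]
  exact h3

end Pool.Agent.Q182.ESF
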